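import Pool.Agent.Q35.GM.Stm

set_option autoImplicit false

/-!
Project GM (helper35), job UBS: abstract upper bounds for the number of planes.
-/

namespace Pool.Agent.Q31.GM

open Pool.Agent.Q35.GM

theorem root (d : ℕ) (hd : 1 ≤ d) (x : ℝ) (hx : 1 ≤ x) :
    ∃ b : ℕ, x ≤ (b : ℝ) ^ d ∧ (b : ℝ) ^ d ≤ 2 ^ d * x := by
  classical
  have hex : ∃ b : ℕ, x ≤ (b : ℝ) ^ d := by
    refine ⟨⌈x⌉₊, ?_⟩
    have h1 : x ≤ (⌈x⌉₊ : ℝ) := Nat.le_ceil x
    have h2 : (1 : ℝ) ≤ (⌈x⌉₊ : ℝ) := hx.trans h1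
    exact h1.trans (le_self_pow₀ h2 (by omega))
  set b := Nat.find hex with hb
  have hb1 : x ≤ (b : ℝ) ^ d := Nat.find_spec hex
  refine ⟨b, hb1, ?_⟩
  have hb0 : b ≠ 0 := by
    intro h
    rw [h, Nat.cast_zero, zero_pow (by omega)] at hb1
    linarith
  rcases Nat.lt_or_ge b 2 with h2 | h2
  · have : b = 1 := by omega
    rw [this, Nat.cast_one, one_pow]
    have h3 : (1 : ℝ) ≤ 2 ^ d := one_le_pow₀ (by norm_num)
    nlinarith
  · have h3 : ¬ x ≤ ((b - 1 : ℕ) : ℝ) ^ d := Nat.find_min hex (by omega)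
    push Not at h3
    have h4 : (b : ℝ) ≤ 2 * ((b - 1 : ℕ) : ℝ) := by
      have : b ≤ 2 * (b - 1) := by omega
      exact_mod_cast this
    calc (b : ℝ) ^ d ≤ (2 * ((b - 1 : ℕ) : ℝ)) ^ d := pow_le_pow_left₀ (by positivity) h4 d
      _ = 2 ^ d * ((b - 1 : ℕ) : ℝ) ^ d := mul_pow _ _ _
      _ ≤ 2 ^ d * x := mul_le_mul_of_nonneg_left h3.le (by positivity)

theorem dyad (F : ℝ → ℝ) (K : ℝ) (s : ℕ) (hK : 0 ≤ K) (hs : 1 ≤ s) (h0 : ∀ x, x < 1 → F x = 0)
    (h1 : ∀ x, 1 ≤ x → F x ≤ F (x / 2) + K * x ^ s) (x : ℝ) (hx : 0 ≤ x) :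
    F x ≤ 2 * K * x ^ s := by
  have key : ∀ (n : ℕ) (x : ℝ), 0 ≤ x → x < 2 ^ n → F x ≤ 2 * K * x ^ s := by
    intro n
    induction n with
    | zero =>
      intro x hx hx1
      rw [pow_zero] at hx1
      rw [h0 x hx1]
      positivity
    | succ n ih =>
      intro x hx hx1
      rcases lt_or_ge x 1 with h2 | h2
      · rw [h0 x h2]
        positivity
      · have h3 := ih (x / 2) (by positivity) (by rw [pow_succ] at hx1; linarith)
        have h4 := h1 x h2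
        have h5 : (x / 2) ^ s ≤ x ^ s / 2 := by
          rw [div_pow]
          have h6 : (2 : ℝ) ≤ 2 ^ s := le_self_pow₀ (by norm_num) (by omega)
          exact div_le_div_of_nonneg_left (by positivity) (by norm_num) h6
        have h7 : 2 * K * (x / 2) ^ s ≤ 2 * K * (x ^ s / 2) :=
          mul_le_mul_of_nonneg_left h5 (by positivity)
        linarith
  obtain ⟨n, hn⟩ := pow_unbounded_of_one_lt x (by norm_num : (1 : ℝ) < 2)
  exact key n x hx hn

section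
variable {PL L : Type} {On : L → PL → Prop} {h : L → ℝ} {H v : PL → ℝ} {Λ : ℝ → ℝ} {r d : ℕ}
  {C η : ℝ}

theorem fin_on (hS : Sys On h H v Λ r d C η) (W : PL) (T : ℝ) :
    {l : L | On l W ∧ h l ≤ T}.Finite := (hS.fin T).subset fun _ hl => hl.2

theorem exists_min (hS : Sys On h H v Λ r d C η) (W : PL) :
    ∃ l1, On l1 W ∧ ∀ l, On l W → h l1 ≤ h l := by
  obtain ⟨l, l', -, hl, -, -⟩ := hS.lower W
  obtain ⟨a, ha, hmin⟩ := Set.exists_min_image {x : L | On x W ∧ h x ≤ h l} h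
    (fin_on hS W (h l)) ⟨l, hl, le_rfl⟩
  refine ⟨a, ha.1, fun x hx => ?_⟩
  rcases le_or_gt (h x) (h l) with h1 | h1
  · exact hmin x ⟨hx, h1⟩
  · exact ha.2.trans h1.le

theorem fin_H (hS : Sys On h H v Λ r d C η) (B : ℝ) : {W : PL | H W ≤ B}.Finite := by
  choose l l' hne hl hl' hll using hS.lower
  refine Set.Finite.of_injOn (f := fun W => (l W, l' W))
    (t := {x : L | h x ≤ C * B} ×ˢ {x : L | h x ≤ C * B}) ?_ ?_
    ((hS.fin (C * B)).prod (hS.fin (C * B)))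
  · intro W hW
    have h1 := hS.one_le_h (l W)
    have h2 := hS.one_le_h (l' W)
    have h3 := hll W
    have h4 : C * H W ≤ C * B := mul_le_mul_of_nonneg_left hW (by linarith [hS.hC])
    constructor
    · show h (l W) ≤ C * B
      nlinarith
    · show h (l' W) ≤ C * B
      nlinarith
  · intro W _ W' _ heq
    have e1 : l W = l W' := congrArg Prod.fst heq
    have e2 : l' W = l' W' := congrArg Prod.snd heq
    exact hS.uniq (l W) (l' W) W W' (hne W) (hl W) (hl' W) (e1 ▸ hl W') (e2 ▸ hl' W')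

/-- the smallest line -/
structure Mn (On : L → PL → Prop) (h : L → ℝ) (H : PL → ℝ) (C : ℝ) (W : PL) (l1 : L) : Prop where
  on : On l1 W
  min : ∀ l, On l W → h l1 ≤ h l
  one : 1 ≤ h l1
  sq : h l1 * h l1 ≤ C * H W
  oth : ∀ l, On l W → l ≠ l1 → H W ≤ C * (h l1 * h l)

theorem exists_Mn (hS : Sys On h H v Λ r d C η) (W : PL) : ∃ l1, Mn On h H C W l1 := by
  obtain ⟨l1, h1, h2⟩ := exists_min hS W
  refine ⟨l1, h1, h2, hS.one_le_h l1, ?_, fun l hl hne => hS.upper l1 l W hne.symm h1 hl⟩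
  obtain ⟨l, l', -, hl, hl', hll⟩ := hS.lower W
  have h3 := h2 l hl
  have h4 := h2 l' hl'
  have h5 := hS.one_le_h l1
  calc h l1 * h l1 ≤ h l * h l' := mul_le_mul h3 h4 (by linarith) (by linarith)
    _ ≤ _ := hll

theorem avg_up (hS : Sys On h H v Λ r d C η) {W : PL} {l1 : L} (hM : Mn On h H C W l1) (T : ℝ)
    (hT : C * H W / h l1 ≤ T) :
    (({l : L | On l W ∧ h l ≤ T}.ncard : ℕ) : ℝ) ≤ 2 * C ^ 4 * 4 ^ d * (T ^ 2 / H W) := by
  classical
  have hC := hS.hC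
  have ha := hM.one
  set a := h l1 with hadef
  have ha0 : 0 < a := by linarith
  have hH : 0 < H W := by linarith [hS.one_le_H W]
  have hT1 : 1 ≤ T := by
    refine le_trans ?_ hT
    rw [le_div_iff₀ ha0]
    have := hM.sq
    nlinarith
  obtain ⟨b, hb1, hb2⟩ := root d hS.hd (C * T) (by nlinarith)
  set X : ℝ := (b : ℝ) ^ d with hX
  have hTX : T ≤ X := by nlinarith
  have hX0 : 0 < X := by linarith
  have havg := hS.avg W a b ha0 hM.min (hT.trans hTX)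
  rw [← hX] at havg
  rw [finsum_mem_eq_finite_toFinset_sum _ (fin_on hS W X)] at havg
  have hHa : H W ≤ a * X := by
    have h1 : C * H W ≤ T * a := (div_le_iff₀ ha0).1 hT
    nlinarith
  have hq0 : 0 ≤ H W / (a * X) := by positivity
  have hq1 : H W / (a * X) ≤ 1 := by
    rw [div_le_one (by positivity)]
    exact hHa
  have hp : (H W / (a * X)) ^ η ≤ 1 := Real.rpow_le_one hq0 hq1 hS.hη.le
  have hv := (hS.v_bd W).2
  have hY : 0 ≤ X ^ 2 / H W := by positivity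
  have hup : ∑ l ∈ (fin_on hS W X).toFinset, Λ (X / h l) ≤ 2 * C * (X ^ 2 / H W) := by
    have h1 := (abs_le.1 havg).2
    have h2 : v W * X ^ 2 / H W ≤ C * (X ^ 2 / H W) := by
      rw [mul_div_assoc]
      exact mul_le_mul_of_nonneg_right hv hY
    have h3 : C * (X ^ 2 / H W) * (H W / (a * X)) ^ η ≤ C * (X ^ 2 / H W) * 1 :=
      mul_le_mul_of_nonneg_left hp (by positivity)
    linarith
  have hlo : (({l : L | On l W ∧ h l ≤ T}.ncard : ℕ) : ℝ) * (1 / C) ≤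
      ∑ l ∈ (fin_on hS W X).toFinset, Λ (X / h l) := by
    have hsub : (fin_on hS W T).toFinset ⊆ (fin_on hS W X).toFinset := by
      intro l hl
      rw [Set.Finite.mem_toFinset] at hl ⊢
      exact ⟨hl.1, hl.2.trans hTX⟩
    refine le_trans ?_ (Finset.sum_le_sum_of_subset_of_nonneg hsub fun l _ _ => hS.lam.nonneg _)
    rw [Set.ncard_eq_toFinset_card _ (fin_on hS W T), ← nsmul_eq_mul]
    refine Finset.card_nsmul_le_sum _ _ _ fun l hl => ?_
    rw [Set.Finite.mem_toFinset] at hl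
    refine hS.lam.pos.trans (hS.lam.mono ?_)
    have hl0 : 0 < h l := by linarith [hS.one_le_h l]
    rw [le_div_iff₀ hl0]
    have := hl.2
    nlinarith
  have hn : (({l : L | On l W ∧ h l ≤ T}.ncard : ℕ) : ℝ) ≤ 2 * C ^ 2 * (X ^ 2 / H W) := by
    have h1 := hlo.trans hup
    have hC0 : 0 < C := by linarith
    have h2 : (({l : L | On l W ∧ h l ≤ T}.ncard : ℕ) : ℝ) =
        C * ((({l : L | On l W ∧ h l ≤ T}.ncard : ℕ) : ℝ) * (1 / C)) := by
      field_simp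
    rw [h2]
    have h3 := mul_le_mul_of_nonneg_left h1 hC0.le
    calc _ ≤ C * (2 * C * (X ^ 2 / H W)) := h3
      _ = _ := by ring
  refine hn.trans ?_
  have h4 : X ^ 2 ≤ 4 ^ d * C ^ 2 * T ^ 2 := by
    have h5 : X ^ 2 ≤ (2 ^ d * (C * T)) ^ 2 := pow_le_pow_left₀ hX0.le hb2 2
    have h6 : (4 : ℝ) ^ d = 2 ^ d * 2 ^ d := by
      rw [← mul_pow]
      norm_num
    rw [h6]
    calc X ^ 2 ≤ (2 ^ d * (C * T)) ^ 2 := h5
      _ = _ := by ring
  have h5 : X ^ 2 / H W ≤ 4 ^ d * C ^ 2 * T ^ 2 / H W := by gcongr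
  calc 2 * C ^ 2 * (X ^ 2 / H W) ≤ 2 * C ^ 2 * (4 ^ d * C ^ 2 * T ^ 2 / H W) :=
        mul_le_mul_of_nonneg_left h5 (by positivity)
    _ = _ := by ring

theorem cnt (hS : Sys On h H v Λ r d C η) (W : PL) (T : ℝ)
    (h2 : 2 ≤ {l : L | On l W ∧ h l ≤ T}.ncard) :
    (({l : L | On l W ∧ h l ≤ T}.ncard : ℕ) : ℝ) ≤ 2 * C ^ 8 * 4 ^ d * (T ^ 2 / H W) := by
  obtain ⟨l1, hM⟩ := exists_Mn hS W
  have hC := hS.hC
  have ha0 : 0 < h l1 := by linarith [hM.one]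
  have hH : 0 < H W := by linarith [hS.one_le_H W]
  obtain ⟨l, hl, hne⟩ := Set.exists_ne_of_one_lt_ncard (s := {l : L | On l W ∧ h l ≤ T})
    (by omega) l1
  have h3 := hM.oth l hl.1 hne
  have hT0 : 0 < T := by linarith [hS.one_le_h l, hl.2]
  have h4 : H W ≤ C * (h l1 * T) := by
    refine h3.trans ?_
    have := hl.2
    gcongr
  rcases le_or_gt (C * H W / h l1) T with h5 | h5
  · refine (avg_up hS hM T h5).trans ?_
    have h6 : C ^ 4 ≤ C ^ 8 := pow_le_pow_right₀ hC (by norm_num)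
    gcongr
  · have h6 : {l : L | On l W ∧ h l ≤ T} ⊆ {l : L | On l W ∧ h l ≤ C * H W / h l1} :=
      fun x hx => ⟨hx.1, hx.2.trans h5.le⟩
    have h7 := Set.ncard_le_ncard h6 (fin_on hS W _)
    have h8 := avg_up hS hM (C * H W / h l1) le_rfl
    have h9 : C * H W / h l1 ≤ C ^ 2 * T := by
      rw [div_le_iff₀ ha0]
      calc C * H W ≤ C * (C * (h l1 * T)) := mul_le_mul_of_nonneg_left h4 (by linarith)
        _ = _ := by ring
    have h10 : (0 : ℝ) ≤ C * H W / h l1 := by positivity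
    have h11 : (C * H W / h l1) ^ 2 ≤ (C ^ 2 * T) ^ 2 := pow_le_pow_left₀ h10 h9 2
    calc (({l : L | On l W ∧ h l ≤ T}.ncard : ℕ) : ℝ)
        ≤ (({l : L | On l W ∧ h l ≤ C * H W / h l1}.ncard : ℕ) : ℝ) := by exact_mod_cast h7
      _ ≤ 2 * C ^ 4 * 4 ^ d * ((C * H W / h l1) ^ 2 / H W) := h8
      _ ≤ 2 * C ^ 4 * 4 ^ d * ((C ^ 2 * T) ^ 2 / H W) := by gcongr
      _ = _ := by ring

/-- many lines besides the smallest one -/
theorem many (hS : Sys On h H v Λ r d C η) {K1 : ℝ} (hK1 : 4 * C ^ 2 ≤ K1)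
    (hK2 : 2 * C ^ 2 ≤ K1 ^ η) {W : PL} {l1 : L} (hM : Mn On h H C W l1) :
    ∃ X : ℝ, X ≤ 2 ^ d * (K1 * (H W / h l1)) ∧
      1 / (2 ^ d * C) * (H W / h l1 ^ 2) ≤
        (({l : L | (On l W ∧ h l ≤ X) ∧ l ≠ l1}.ncard : ℕ) : ℝ) := by
  classical
  have hC := hS.hC
  have hC0 : 0 < C := by linarith
  have ha := hM.one
  set a := h l1 with hadef
  have ha0 : 0 < a := by linarith
  have hH : 0 < H W := by linarith [hS.one_le_H W]
  have hsq := hM.sq
  have hCC : C ≤ C ^ 2 := by nlinarith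
  have hK0 : 0 < K1 := by nlinarith
  have hCK : C ≤ K1 := by nlinarith
  have hx1 : a ≤ K1 * (H W / a) := by
    rw [← mul_div_assoc, le_div_iff₀ ha0]
    nlinarith
  obtain ⟨b, hb1, hb2⟩ := root d hS.hd (K1 * (H W / a)) (by linarith)
  set X : ℝ := (b : ℝ) ^ d with hX
  have haX : a ≤ X := hx1.trans hb1
  have hX0 : 0 < X := by linarith
  have hcond : C * H W / a ≤ X := by
    refine le_trans ?_ hb1
    rw [mul_div_assoc]
    exact mul_le_mul_of_nonneg_right hCK (by positivity)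
  have havg := hS.avg W a b ha0 hM.min hcond
  rw [← hX] at havg
  rw [finsum_mem_eq_finite_toFinset_sum _ (fin_on hS W X)] at havg
  have hq0 : 0 ≤ H W / (a * X) := by positivity
  have hKX : K1 * H W ≤ a * X := by
    have : K1 * (H W / a) * a ≤ X * a := mul_le_mul_of_nonneg_right hb1 ha0.le
    have e : K1 * (H W / a) * a = K1 * H W := by field_simp
    linarith
  have hq1 : H W / (a * X) ≤ K1⁻¹ := by
    rw [div_le_iff₀ (by positivity), inv_mul_eq_div, le_div_iff₀ hK0]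
    linarith
  have hp : (H W / (a * X)) ^ η ≤ (2 * C ^ 2)⁻¹ := by
    calc (H W / (a * X)) ^ η ≤ K1⁻¹ ^ η := Real.rpow_le_rpow hq0 hq1 hS.hη.le
      _ = (K1 ^ η)⁻¹ := Real.inv_rpow hK0.le η
      _ ≤ _ := inv_anti₀ (by positivity) hK2
  have hv := (hS.v_bd W).1
  have hY : 0 < X ^ 2 / H W := by positivity
  have hlo : 1 / (2 * C) * (X ^ 2 / H W) ≤ ∑ l ∈ (fin_on hS W X).toFinset, Λ (X / h l) := by
    have h1 := (abs_le.1 havg).1
    have h2 : 1 / C * (X ^ 2 / H W) ≤ v W * X ^ 2 / H W := by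
      rw [mul_div_assoc]
      exact mul_le_mul_of_nonneg_right hv hY.le
    have h3 : C * (X ^ 2 / H W) * (H W / (a * X)) ^ η ≤ C * (X ^ 2 / H W) * (2 * C ^ 2)⁻¹ :=
      mul_le_mul_of_nonneg_left hp (by positivity)
    have h4 : C * (X ^ 2 / H W) * (2 * C ^ 2)⁻¹ = 1 / (2 * C) * (X ^ 2 / H W) := by
      field_simp
    have h5 : 1 / C * (X ^ 2 / H W) = 1 / (2 * C) * (X ^ 2 / H W) + 1 / (2 * C) * (X ^ 2 / H W) := by
      field_simp
      ring
    linarith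
  refine ⟨X, hb2, ?_⟩
  have hmem : l1 ∈ (fin_on hS W X).toFinset := by
    rw [Set.Finite.mem_toFinset]
    exact ⟨hM.on, haX⟩
  have hsplit := Finset.add_sum_erase _ (fun l => Λ (X / h l)) hmem
  have hset : {l : L | (On l W ∧ h l ≤ X) ∧ l ≠ l1} =
      (((fin_on hS W X).toFinset.erase l1 : Finset L) : Set L) := by
    ext l
    simp [and_comm]
  have hfirst : Λ (X / h l1) ≤ C * (X / a) := by
    refine hS.lam.le _ ?_
    rw [one_le_div ha0]
    exact haX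
  have hrest : ∑ l ∈ (fin_on hS W X).toFinset.erase l1, Λ (X / h l) ≤
      (((fin_on hS W X).toFinset.erase l1).card : ℝ) * (C * (2 ^ d * K1 * C)) := by
    rw [← nsmul_eq_mul]
    refine Finset.sum_le_card_nsmul _ _ _ fun l hl => ?_
    rw [Finset.mem_erase, Set.Finite.mem_toFinset] at hl
    have hl0 : 0 < h l := by linarith [hS.one_le_h l]
    have h1 : Λ (X / h l) ≤ C * (X / h l) := hS.lam.le _ (by rw [one_le_div hl0]; exact hl.2.2)
    refine h1.trans (mul_le_mul_of_nonneg_left ?_ hC0.le)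
    rw [div_le_iff₀ hl0]
    have h2 := hM.oth l hl.2.1 hl.1
    have h3 : K1 * (H W / a) ≤ K1 * C * h l := by
      rw [mul_assoc]
      refine mul_le_mul_of_nonneg_left ?_ hK0.le
      rw [div_le_iff₀ ha0]
      calc H W ≤ C * (a * h l) := h2
        _ = _ := by ring
    calc X ≤ 2 ^ d * (K1 * (H W / a)) := hb2
      _ ≤ 2 ^ d * (K1 * C * h l) := mul_le_mul_of_nonneg_left h3 (by positivity)
      _ = _ := by ring
  rw [hset, Set.ncard_coe_finset]
  set n : ℝ := (((fin_on hS W X).toFinset.erase l1).card : ℝ) with hn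
  -- the final computation
  have hXH : K1 / a ≤ X / H W := by
    rw [div_le_div_iff₀ ha0 hH]
    linarith
  have h1 : K1 / (2 * C) * (X / a) ≤ 1 / (2 * C) * (X ^ 2 / H W) := by
    have e1 : K1 / (2 * C) * (X / a) = X / (2 * C) * (K1 / a) := by ring
    have e2 : 1 / (2 * C) * (X ^ 2 / H W) = X / (2 * C) * (X / H W) := by ring
    rw [e1, e2]
    exact mul_le_mul_of_nonneg_left hXH (by positivity)
  have h2 : K1 / (2 * C) * (X / a) - C * (X / a) ≤ n * (C * (2 ^ d * K1 * C)) := by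
    linarith
  have h3 : C ≤ K1 / (4 * C) := by
    rw [le_div_iff₀ (by positivity)]
    nlinarith
  have h4 : K1 / (4 * C) * (X / a) ≤ n * (C * (2 ^ d * K1 * C)) := by
    have e : K1 / (2 * C) = K1 / (4 * C) + K1 / (4 * C) := by field_simp; ring
    have h5 : C * (X / a) ≤ K1 / (4 * C) * (X / a) := mul_le_mul_of_nonneg_right h3 (by positivity)
    rw [e] at h2
    linarith
  have h5 : K1 * (H W / a ^ 2) ≤ X / a := by
    rw [le_div_iff₀ ha0]
    have e : K1 * (H W / a ^ 2) * a = K1 * (H W / a) := by field_simp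
    rw [e]
    exact hb1
  have h6 : K1 / (4 * C) * (K1 * (H W / a ^ 2)) ≤ n * (C * (2 ^ d * K1 * C)) :=
    (mul_le_mul_of_nonneg_left h5 (by positivity)).trans h4
  have h7 : (4 * C ^ 2) / (4 * C) * (K1 * (H W / a ^ 2)) ≤ n * (C * (2 ^ d * K1 * C)) := by
    refine le_trans ?_ h6
    gcongr
  have h8 : 1 / (2 ^ d * C) * (H W / a ^ 2) * (C * (2 ^ d * K1 * C)) ≤ n * (C * (2 ^ d * K1 * C)) := by
    refine le_trans (le_of_eq ?_) h7
    field_simp
  exact le_of_mul_le_mul_right h8 (by positivity)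

/-- few planes in a box -/
theorem box (hS : Sys On h H v Λ r d C η) {K1 : ℝ} (hK1 : 4 * C ^ 2 ≤ K1)
    (hK2 : 2 * C ^ 2 ≤ K1 ^ η) (l1 : PL → L) (hM : ∀ W, Mn On h H C W (l1 W)) (B α : ℝ)
    (hB : 1 ≤ B) (hα : 1 ≤ α) :
    (({W : PL | (B / 2 < H W ∧ H W ≤ B) ∧ α / 2 < h (l1 W) ∧ h (l1 W) ≤ α}.ncard : ℕ) : ℝ) ≤
      2 ^ (d + 1) * C ^ 2 * (2 ^ (d + 1) * K1) ^ r * (B ^ (r - 1) * α ^ 2) := by
  classical
  have hC := hS.hC
  have hC0 : 0 < C := by linarith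
  have hK0 : 0 < K1 := by nlinarith
  have hα0 : 0 < α := by linarith
  have hB0 : 0 < B := by linarith
  set S : Set PL := {W : PL | (B / 2 < H W ∧ H W ≤ B) ∧ α / 2 < h (l1 W) ∧ h (l1 W) ≤ α} with hSdef
  have hSf : S.Finite := (fin_H hS B).subset fun W hW => hW.1.2
  rcases S.eq_empty_or_nonempty with he | ⟨W0, hW0⟩
  · rw [he, Set.ncard_empty, Nat.cast_zero]
    positivity
  set T' : ℝ := 2 ^ (d + 1) * K1 * (B / α) with hT'
  have h2d : (1 : ℝ) ≤ 2 ^ d := one_le_pow₀ (by norm_num)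
  have hT1 : 1 ≤ T' := by
    have h1 := (hM W0).sq
    have h2 := hW0.2.1
    have h3 : α / 2 * (α / 2) ≤ C * B := by
      have h4 : C * H W0 ≤ C * B := mul_le_mul_of_nonneg_left hW0.1.2 hC0.le
      nlinarith
    have h5 : 1 / (4 * C) ≤ B / α := by
      rw [div_le_div_iff₀ (by positivity) hα0]
      nlinarith
    have h6 : 4 * C ^ 2 * (1 / (4 * C)) ≤ K1 * (B / α) :=
      mul_le_mul hK1 h5 (by positivity) hK0.le
    have h7 : 4 * C ^ 2 * (1 / (4 * C)) = C := by field_simp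
    have h8 : 1 * (K1 * (B / α)) ≤ 2 ^ (d + 1) * (K1 * (B / α)) := by
      refine mul_le_mul_of_nonneg_right ?_ (by positivity)
      rw [pow_succ]
      linarith
    rw [hT', mul_assoc]
    linarith
  have hAf : ∀ W, {l : L | (On l W ∧ h l ≤ T') ∧ l ≠ l1 W}.Finite := fun W =>
    (fin_on hS W T').subset fun l hl => hl.1
  have hP := hS.pairs α T' hα hT1
  have hPf : {p : L × L | p.1 ≠ p.2 ∧ (∃ W, On p.1 W ∧ On p.2 W) ∧ h p.1 ≤ α ∧ h p.2 ≤ T'}.Finite :=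
    ((hS.fin α).prod (hS.fin T')).subset fun p hp => ⟨hp.2.2.1, hp.2.2.2⟩
  -- the pairs
  have hcard : ∑ W ∈ hSf.toFinset, (hAf W).toFinset.card ≤ hPf.toFinset.card := by
    rw [← Finset.card_sigma]
    refine Finset.card_le_card_of_injOn (fun x => (l1 x.1, x.2)) ?_ ?_
    · rintro ⟨W, l⟩ hx
      rw [Finset.mem_coe, Finset.mem_sigma, Set.Finite.mem_toFinset, Set.Finite.mem_toFinset] at hx
      rw [Finset.mem_coe, Set.Finite.mem_toFinset]
      exact ⟨fun h => hx.2.2 h.symm, ⟨W, (hM W).on, hx.2.1.1⟩, hx.1.2.2, hx.2.1.2⟩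
    · rintro ⟨W, l⟩ hx ⟨W', l'⟩ hx' heq
      rw [Finset.mem_coe, Finset.mem_sigma, Set.Finite.mem_toFinset, Set.Finite.mem_toFinset] at hx hx'
      have e1 : l1 W = l1 W' := congrArg Prod.fst heq
      have e2 : l = l' := congrArg Prod.snd heq
      subst e2
      have e3 : W = W' := hS.uniq (l1 W) l W W' (fun h => hx.2.2 h.symm) (hM W).on hx.2.1.1
        (e1 ▸ (hM W').on) hx'.2.1.1
      subst e3
      rfl
  have hW : ∀ W ∈ hSf.toFinset, 1 / (2 ^ (d + 1) * C) * (B / α ^ 2) ≤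
      ((hAf W).toFinset.card : ℝ) := by
    intro W hW
    rw [Set.Finite.mem_toFinset] at hW
    obtain ⟨X, hX1, hX2⟩ := many hS hK1 hK2 (hM W)
    have ha0 : 0 < h (l1 W) := by linarith [(hM W).one]
    have hH0 : 0 < H W := by linarith [hS.one_le_H W]
    have h1 : H W / h (l1 W) ≤ 2 * (B / α) := by
      rw [div_le_iff₀ ha0]
      have h3 : 2 * (B / α) * (α / 2) ≤ 2 * (B / α) * h (l1 W) :=
        mul_le_mul_of_nonneg_left hW.2.1.le (by positivity)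
      have h4 : 2 * (B / α) * (α / 2) = B := by field_simp
      linarith [hW.1.2]
    have h2 : X ≤ T' := by
      refine hX1.trans ?_
      calc 2 ^ d * (K1 * (H W / h (l1 W))) ≤ 2 ^ d * (K1 * (2 * (B / α))) := by gcongr
        _ = T' := by rw [hT', pow_succ]; ring
    have h3 : {l : L | (On l W ∧ h l ≤ X) ∧ l ≠ l1 W} ⊆ {l : L | (On l W ∧ h l ≤ T') ∧ l ≠ l1 W} :=
      fun l hl => ⟨⟨hl.1.1, hl.1.2.trans h2⟩, hl.2⟩
    have h4 := Set.ncard_le_ncard h3 (hAf W)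
    rw [Set.ncard_eq_toFinset_card _ (hAf W)] at h4
    have h5 : (({l : L | (On l W ∧ h l ≤ X) ∧ l ≠ l1 W}.ncard : ℕ) : ℝ) ≤
      ((hAf W).toFinset.card : ℝ) := by exact_mod_cast h4
    refine le_trans ?_ (hX2.trans h5)
    have h6 : B / 2 / α ^ 2 ≤ H W / h (l1 W) ^ 2 := by
      have h7 := hW.1.1.le
      have h8 := hW.2.2
      gcongr
    calc 1 / (2 ^ (d + 1) * C) * (B / α ^ 2) = 1 / (2 ^ d * C) * (B / 2 / α ^ 2) := by
          rw [pow_succ]
          field_simp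
      _ ≤ _ := mul_le_mul_of_nonneg_left h6 (by positivity)
  have hsum : (hSf.toFinset.card : ℝ) * (1 / (2 ^ (d + 1) * C) * (B / α ^ 2)) ≤
      C * (α ^ r * T' ^ r) := by
    rw [← nsmul_eq_mul]
    refine (Finset.card_nsmul_le_sum _ _ _ hW).trans ?_
    refine le_trans ?_ hP
    rw [Set.ncard_eq_toFinset_card _ hPf]
    exact_mod_cast hcard
  rw [Set.ncard_eq_toFinset_card _ hSf]
  have e1 : α ^ r * T' ^ r = (2 ^ (d + 1) * K1) ^ r * (B ^ (r - 1) * B) := by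
    rw [← mul_pow, ← pow_succ, Nat.sub_add_cancel (by have := hS.hr; omega), ← mul_pow]
    congr 1
    rw [hT']
    field_simp
  rw [e1] at hsum
  have h9 : (hSf.toFinset.card : ℝ) * (1 / (2 ^ (d + 1) * C) * (B / α ^ 2)) *
      (2 ^ (d + 1) * C * α ^ 2 / B) ≤
      C * ((2 ^ (d + 1) * K1) ^ r * (B ^ (r - 1) * B)) * (2 ^ (d + 1) * C * α ^ 2 / B) :=
    mul_le_mul_of_nonneg_right hsum (by positivity)
  have e2 : (hSf.toFinset.card : ℝ) * (1 / (2 ^ (d + 1) * C) * (B / α ^ 2)) *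
      (2 ^ (d + 1) * C * α ^ 2 / B) = (hSf.toFinset.card : ℝ) := by
    field_simp
  have e3 : C * ((2 ^ (d + 1) * K1) ^ r * (B ^ (r - 1) * B)) * (2 ^ (d + 1) * C * α ^ 2 / B) =
      2 ^ (d + 1) * C ^ 2 * (2 ^ (d + 1) * K1) ^ r * (B ^ (r - 1) * α ^ 2) := by
    field_simp
  rw [e2, e3] at h9
  exact h9

end

theorem ubs : S_UBS := by
  intro PL L On h H v Λ r d C η hS
  have hC := hS.hC
  have hC0 : 0 < C := by linarith
  have hr := hS.hr
  choose l1 hM using exists_Mn hS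
  -- the constant K1
  obtain ⟨K1, hK1, hK2⟩ : ∃ K1 : ℝ, 4 * C ^ 2 ≤ K1 ∧ 2 * C ^ 2 ≤ K1 ^ η := by
    refine ⟨max (4 * C ^ 2) ((2 * C ^ 2) ^ η⁻¹), le_max_left _ _, ?_⟩
    have h1 : ((2 * C ^ 2) ^ η⁻¹) ^ η = 2 * C ^ 2 := Real.rpow_inv_rpow (by positivity) hS.hη.ne'
    calc 2 * C ^ 2 = ((2 * C ^ 2) ^ η⁻¹) ^ η := h1.symm
      _ ≤ _ := Real.rpow_le_rpow (by positivity) (le_max_right _ _) hS.hη.le
  have hK0 : 0 < K1 := by nlinarith
  set C3 : ℝ := 2 ^ (d + 1) * C ^ 2 * (2 ^ (d + 1) * K1) ^ r with hC3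
  have hC30 : 0 ≤ C3 := by positivity
  -- the planes with heights in (B/2, B] and small smallest line
  have hG : ∀ B α : ℝ, 1 ≤ B → 0 ≤ α →
      (({W : PL | (B / 2 < H W ∧ H W ≤ B) ∧ h (l1 W) ≤ α}.ncard : ℕ) : ℝ) ≤
        2 * (C3 * B ^ (r - 1)) * α ^ 2 := by
    intro B α hB hα
    refine dyad (fun α => (({W : PL | (B / 2 < H W ∧ H W ≤ B) ∧ h (l1 W) ≤ α}.ncard : ℕ) : ℝ))
      (C3 * B ^ (r - 1)) 2 (by positivity) (by norm_num) ?_ ?_ α hα
    · intro x hx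
      have : {W : PL | (B / 2 < H W ∧ H W ≤ B) ∧ h (l1 W) ≤ x} = ∅ := by
        ext W
        simp only [Set.mem_ofPred_eq, Set.mem_empty_iff_false, iff_false]
        rintro ⟨-, h1⟩
        linarith [(hM W).one]
      simp only [this, Set.ncard_empty, Nat.cast_zero]
    · intro x hx
      have hfin : ∀ y : ℝ, {W : PL | (B / 2 < H W ∧ H W ≤ B) ∧ h (l1 W) ≤ y}.Finite := fun y =>
        (fin_H hS B).subset fun W hW => hW.1.2
      have hfin2 : {W : PL | (B / 2 < H W ∧ H W ≤ B) ∧ x / 2 < h (l1 W) ∧ h (l1 W) ≤ x}.Finite :=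
        (fin_H hS B).subset fun W hW => hW.1.2
      have hsub : {W : PL | (B / 2 < H W ∧ H W ≤ B) ∧ h (l1 W) ≤ x} ⊆
          {W : PL | (B / 2 < H W ∧ H W ≤ B) ∧ h (l1 W) ≤ x / 2} ∪
          {W : PL | (B / 2 < H W ∧ H W ≤ B) ∧ x / 2 < h (l1 W) ∧ h (l1 W) ≤ x} := by
        intro W hW
        rcases le_or_gt (h (l1 W)) (x / 2) with h1 | h1
        · exact Or.inl ⟨hW.1, h1⟩
        · exact Or.inr ⟨hW.1, h1, hW.2⟩
      have h1 := (Set.ncard_le_ncard hsub ((hfin _).union hfin2)).trans (Set.ncard_union_le _ _)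
      have h2 := box hS hK1 hK2 l1 hM B x hB hx
      have h3 : (({W : PL | (B / 2 < H W ∧ H W ≤ B) ∧ h (l1 W) ≤ x}.ncard : ℕ) : ℝ) ≤
          (({W : PL | (B / 2 < H W ∧ H W ≤ B) ∧ h (l1 W) ≤ x / 2}.ncard : ℕ) : ℝ) +
          (({W : PL | (B / 2 < H W ∧ H W ≤ B) ∧ x / 2 < h (l1 W) ∧ h (l1 W) ≤ x}.ncard : ℕ) : ℝ) := by
        exact_mod_cast h1
      calc _ ≤ _ := h3
        _ ≤ (({W : PL | (B / 2 < H W ∧ H W ≤ B) ∧ h (l1 W) ≤ x / 2}.ncard : ℕ) : ℝ) +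
            C3 * (B ^ (r - 1) * x ^ 2) := by linarith
        _ = _ := by ring
  -- the skew planes
  have hF : ∀ κ B : ℝ, 0 < κ → 0 ≤ B →
      (({W : PL | H W ≤ B ∧ h (l1 W) ^ 2 ≤ κ * H W}.ncard : ℕ) : ℝ) ≤
        2 * (2 * C3 * κ) * B ^ r := by
    intro κ B hκ hB
    refine dyad (fun B => (({W : PL | H W ≤ B ∧ h (l1 W) ^ 2 ≤ κ * H W}.ncard : ℕ) : ℝ))
      (2 * C3 * κ) r (by positivity) (by omega) ?_ ?_ B hB
    · intro x hx
      have : {W : PL | H W ≤ x ∧ h (l1 W) ^ 2 ≤ κ * H W} = ∅ := by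
        ext W
        simp only [Set.mem_ofPred_eq, Set.mem_empty_iff_false, iff_false]
        rintro ⟨h1, -⟩
        linarith [hS.one_le_H W]
      simp only [this, Set.ncard_empty, Nat.cast_zero]
    · intro x hx
      have hfin : ∀ y : ℝ, {W : PL | H W ≤ y ∧ h (l1 W) ^ 2 ≤ κ * H W}.Finite := fun y =>
        (fin_H hS y).subset fun W hW => hW.1
      have hfin2 : {W : PL | (x / 2 < H W ∧ H W ≤ x) ∧ h (l1 W) ≤ Real.sqrt (κ * x)}.Finite :=
        (fin_H hS x).subset fun W hW => hW.1.2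
      have hsub : {W : PL | H W ≤ x ∧ h (l1 W) ^ 2 ≤ κ * H W} ⊆
          {W : PL | H W ≤ x / 2 ∧ h (l1 W) ^ 2 ≤ κ * H W} ∪
          {W : PL | (x / 2 < H W ∧ H W ≤ x) ∧ h (l1 W) ≤ Real.sqrt (κ * x)} := by
        intro W hW
        rcases le_or_gt (H W) (x / 2) with h1 | h1
        · exact Or.inl ⟨h1, hW.2⟩
        · refine Or.inr ⟨⟨h1, hW.1⟩, Real.le_sqrt_of_sq_le ?_⟩
          have := hW.2
          have h2 : κ * H W ≤ κ * x := mul_le_mul_of_nonneg_left hW.1 hκ.le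
          linarith
      have h1 := (Set.ncard_le_ncard hsub ((hfin _).union hfin2)).trans (Set.ncard_union_le _ _)
      have h2 := hG x (Real.sqrt (κ * x)) hx (Real.sqrt_nonneg _)
      rw [Real.sq_sqrt (by positivity)] at h2
      have h3 : (({W : PL | H W ≤ x ∧ h (l1 W) ^ 2 ≤ κ * H W}.ncard : ℕ) : ℝ) ≤
          (({W : PL | H W ≤ x / 2 ∧ h (l1 W) ^ 2 ≤ κ * H W}.ncard : ℕ) : ℝ) +
          (({W : PL | (x / 2 < H W ∧ H W ≤ x) ∧ h (l1 W) ≤ Real.sqrt (κ * x)}.ncard : ℕ) : ℝ) := by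
        exact_mod_cast h1
      have e1 : 2 * (C3 * x ^ (r - 1)) * (κ * x) = 2 * C3 * κ * x ^ r := by
        have : x ^ r = x ^ (r - 1) * x := by
          rw [← pow_succ, Nat.sub_add_cancel (by omega)]
        rw [this]
        ring
      rw [e1] at h2
      linarith
  have hsk : ∀ B κ : ℝ, 1 ≤ B → 0 < κ →
      (({W : PL | H W ≤ B ∧ ∃ l, On l W ∧ h l ^ 2 ≤ κ * H W}.ncard : ℕ) : ℝ) ≤
        4 * C3 * κ * B ^ r := by
    intro B κ hB hκ
    have hsub : {W : PL | H W ≤ B ∧ ∃ l, On l W ∧ h l ^ 2 ≤ κ * H W} ⊆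
        {W : PL | H W ≤ B ∧ h (l1 W) ^ 2 ≤ κ * H W} := by
      rintro W ⟨h1, l, hl, h2⟩
      refine ⟨h1, le_trans ?_ h2⟩
      exact pow_le_pow_left₀ (by linarith [(hM W).one]) ((hM W).min l hl) 2
    have hfin : {W : PL | H W ≤ B ∧ h (l1 W) ^ 2 ≤ κ * H W}.Finite :=
      (fin_H hS B).subset fun W hW => hW.1
    have h1 : (({W : PL | H W ≤ B ∧ ∃ l, On l W ∧ h l ^ 2 ≤ κ * H W}.ncard : ℕ) : ℝ) ≤
        (({W : PL | H W ≤ B ∧ h (l1 W) ^ 2 ≤ κ * H W}.ncard : ℕ) : ℝ) := by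
      exact_mod_cast Set.ncard_le_ncard hsub hfin
    have h2 := hF κ B hκ (by linarith)
    linarith
  set C' : ℝ := 1 + 2 * C ^ 8 * 4 ^ d + 4 * C3 * C with hC'
  have hc1 : 2 * C ^ 8 * 4 ^ d ≤ C' := by
    have : 0 ≤ 4 * C3 * C := by positivity
    linarith
  have hc2 : 4 * C3 * C ≤ C' := by
    have : 0 ≤ 2 * C ^ 8 * 4 ^ d := by positivity
    linarith
  refine ⟨C', ?_, ?_, fin_H hS, ?_, ?_⟩
  · have h1 : 0 ≤ 2 * C ^ 8 * 4 ^ d := by positivity
    have h2 : 0 ≤ 4 * C3 * C := by positivity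
    linarith
  · intro W T h2
    refine (cnt hS W T h2).trans ?_
    have hH : 0 < H W := by linarith [hS.one_le_H W]
    exact mul_le_mul_of_nonneg_right hc1 (by positivity)
  · intro B hB
    have h1 := hsk B C hB hC0
    have h2 : {W : PL | H W ≤ B} ⊆ {W : PL | H W ≤ B ∧ ∃ l, On l W ∧ h l ^ 2 ≤ C * H W} := by
      intro W hW
      refine ⟨hW, l1 W, (hM W).on, ?_⟩
      rw [pow_two]
      exact (hM W).sq
    have hfin : {W : PL | H W ≤ B ∧ ∃ l, On l W ∧ h l ^ 2 ≤ C * H W}.Finite :=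
      (fin_H hS B).subset fun W hW => hW.1
    have h3 : (({W : PL | H W ≤ B}.ncard : ℕ) : ℝ) ≤
        (({W : PL | H W ≤ B ∧ ∃ l, On l W ∧ h l ^ 2 ≤ C * H W}.ncard : ℕ) : ℝ) := by
      exact_mod_cast Set.ncard_le_ncard h2 hfin
    refine (h3.trans h1).trans (mul_le_mul_of_nonneg_right hc2 (by positivity))
  · intro B κ hB hκ
    refine (hsk B κ hB hκ).trans (mul_le_mul_of_nonneg_right ?_ (by positivity))
    refine mul_le_mul_of_nonneg_right ?_ hκ.le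
    refine le_trans ?_ hc2
    exact le_mul_of_one_le_right (by positivity) hC

end Pool.Agent.Q31.GM
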